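import Pool.Agent.H84.SS.Targets

/-!
# Return times, singular spectrum: the maximal inequality for weights with singular spectral
measure (row M_MXW)
-/

set_option autoImplicit false

namespace Pool.Agent.H43.SS

open MeasureTheory Filter Topology Set ProbabilityTheory
open scoped ENNReal ComplexConjugate
open Pool.Agent.H84.SS
open Pool.Agent.H85.RT (avg GoodWeight Good)
open Pool.Agent.H94.RTB (LGood PD)

universe u

theorem meas_pick {X : Type u} [MeasurableSpace X] (F : ℕ → X → ℂ) (hF : ∀ k, Measurable (F k))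
    (N : X → ℕ) (hN : Measurable N) : Measurable (fun x => F (N x) x) := by
  have h1 : Measurable (fun z : ℕ × X => F z.1 z.2) := measurable_from_prod_countable_right hF
  exact h1.comp (hN.prodMk measurable_id)

theorem ph_meas {X : Type u} [MeasurableSpace X] (T : X ≃ᵐ X) (f g : X → ℂ) (w : ℕ → ℂ)
    (hf : Measurable f) (hg : Measurable g) (N : X → ℕ) (θ : X → ℂ) (hN : Measurable N)
    (hθ : Measurable θ) (a b c : ℕ) : Measurable (ph T f g w N θ a b c) := by
  have hk : ∀ k : ℕ, Measurable (fun y : X => (∑ n ∈ Finset.Icc 1 k,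
      w (n + a) * f (T^[n + b] y) * g (T.symm^[n + c] y)) / (k : ℂ)) := by
    intro k
    refine Measurable.div_const (Finset.measurable_sum _ fun n _ => ?_) _
    have e1 : Measurable (fun y => f (T^[n + b] y)) := hf.comp (T.measurable.iterate (n + b))
    have e2 : Measurable (fun y => g (T.symm^[n + c] y)) :=
      hg.comp (T.symm.measurable.iterate (n + c))
    exact (e1.const_mul _).mul e2
  have h2 := meas_pick (fun (k : ℕ) (y : X) => (∑ n ∈ Finset.Icc 1 k,
      w (n + a) * f (T^[n + b] y) * g (T.symm^[n + c] y)) / (k : ℂ)) hk N hN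
  exact hθ.mul h2

theorem ph_bdd {X : Type u} [MeasurableSpace X] (T : X ≃ᵐ X) (f g : X → ℂ) (w : ℕ → ℂ) (B : ℝ)
    (hf : ∀ x, ‖f x‖ ≤ 1) (hg : ∀ x, ‖g x‖ ≤ 1) (hw : ∀ n, ‖w n‖ ≤ B) (N : X → ℕ) (θ : X → ℂ)
    (hN : ∀ x, 1 ≤ N x) (hθ : ∀ x, ‖θ x‖ ≤ 1) (a b c : ℕ) (x : X) :
    ‖ph T f g w N θ a b c x‖ ≤ B := by
  have hB : 0 ≤ B := (norm_nonneg _).trans (hw 0)
  unfold ph
  have hN0 : (0 : ℝ) < N x := by exact_mod_cast hN x
  rw [norm_mul, norm_div, Complex.norm_natCast]
  have h1 : ‖∑ n ∈ Finset.Icc 1 (N x), w (n + a) * f (T^[n + b] x) * g (T.symm^[n + c] x)‖ ≤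
      N x * B := by
    refine (norm_sum_le _ _).trans ?_
    refine (Finset.sum_le_sum (g := fun _ => B) fun n _ => ?_).trans ?_
    · rw [norm_mul, norm_mul]
      calc ‖w (n + a)‖ * ‖f (T^[n + b] x)‖ * ‖g (T.symm^[n + c] x)‖ ≤ B * 1 * 1 := by
            gcongr
            · exact hw _
            · exact hf _
            · exact hg _
        _ = B := by ring
    · rw [Finset.sum_const, Nat.card_Icc, nsmul_eq_mul, Nat.add_sub_cancel]
  calc ‖θ x‖ * (‖∑ n ∈ Finset.Icc 1 (N x), w (n + a) * f (T^[n + b] x) *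
        g (T.symm^[n + c] x)‖ / N x) ≤ 1 * ((N x * B) / N x) := by
        gcongr
        exact hθ x
    _ = B := by field_simp

theorem pf_MXW (h1 : M_STO.{u}) (h2 : M_LIM.{u}) (h3 : M_INV.{u}) (h4 : M_B12.{u})
    (h5 : M_B13.{u}) (h6 : M_B23.{u}) (h7 : M_PDX.{u}) (h8 : M_PFE.{u}) (h9 : D_DET) :
    M_MXW.{u} := by
  intro X _ μ _ T f g w p B σ _ hT hf hg hf1 hg1 hw hDR hhat hsing δ hδ
  obtain ⟨N, θ, hRT, hr⟩ := h1 X T f g w δ hf hg hδ
  obtain ⟨R, hR⟩ := h2 X μ T f g w B N θ hf hg hf1 hg1 hw.bdd hRT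
  have hTs : MeasurePreserving T.symm μ μ := mp_symm hT
  set q : ℝ := √(σ.real (atoms σ)) with hq
  -- the pointwise bound
  have hpt : ∀ᵐ x ∂μ, ‖R 0 0 0 x‖ ≤ q := by
    filter_upwards [h3 X μ T f g w B N θ R hf hg hf1 hg1 hw.bdd hRT hR,
      h4 X μ T f g w p B N θ R hT hf hg hf1 hg1 hw hRT hR,
      h5 X μ T f g w p B N θ R hT hf hg hf1 hg1 hw hRT hR,
      h6 X μ T f g w B N θ R hT hf hg hf1 hg1 hw.bdd hDR hRT hR,
      h7 X μ T f hT hf hf1, h7 X μ T.symm g hTs hg hg1, h8 X μ T f hT hf hf1]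
      with x e3 e4 e5 e6 e7 e7' e8
    have hTrip : Trip 1 1 (2 * B ^ 2) p (pf μ T f x) (pf μ T.symm g x)
        (fun a b c => R a b c x) :=
      { inv := e3
        b12 := fun c s u => by rw [one_mul]; exact e4 c s u
        b13 := fun b s u => by rw [one_mul]; exact e5 b s u
        b23 := e6 }
    have e9 := h9 1 1 (2 * B ^ 2) p (pf μ T f x) (pf μ T.symm g x) (fun a b c => R a b c x) σ
      zero_le_one zero_le_one (by positivity) hTrip hhat hsing e7 e7'
    rw [one_mul] at e9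
    rw [hq]
    apply Real.le_sqrt_of_sq_le
    refine e9.trans ?_
    have h0 : 0 ≤ σ.real (atoms σ) := measureReal_nonneg
    calc σ.real (atoms σ) * (pf μ T f x 0).re ≤ σ.real (atoms σ) * 1 := by
          gcongr
          exact e8.2
      _ = σ.real (atoms σ) := mul_one _
  -- the averages at the random times
  choose r hr0 hr1 hr2 using hr
  have hrm : ∀ i, r i = fun x => (ph T f g w (N i) (θ i) 0 0 0 x).re := by
    intro i
    funext x
    rw [hr1 i x, Complex.ofReal_re]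
  have hphm : ∀ i, Measurable (ph T f g w (N i) (θ i) 0 0 0) := fun i =>
    ph_meas T f g w hf hg (N i) (θ i) (hRT.measN i) (hRT.measθ i) 0 0 0
  have hphi : ∀ i, Integrable (ph T f g w (N i) (θ i) 0 0 0) μ := fun i =>
    Integrable.of_bound (hphm i).aestronglyMeasurable B (Eventually.of_forall fun x =>
      ph_bdd T f g w B hf1 hg1 hw.bdd (N i) (θ i)
        (fun x => (Nat.le_add_left 1 i).trans (hRT.large i x)) (hRT.bddθ i) 0 0 0 x)
  have hri : ∀ i, Integrable (r i) μ := fun i => by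
    rw [hrm i]
    exact (hphi i).re
  have hmark : ∀ i, δ * μ.real {x | ∃ᶠ M in atTop, δ < ‖avg T f g w M x‖} ≤ ∫ x, r i x ∂μ := by
    intro i
    refine le_trans ?_ (mul_meas_ge_le_integral_of_nonneg
      (Eventually.of_forall fun x => hr0 i x) (hri i) δ)
    refine mul_le_mul_of_nonneg_left ?_ hδ.le
    exact measureReal_mono fun x hx => hr2 i x hx
  -- the limit
  have hlim := hR.lim 0 0 0 univ MeasurableSet.univ
  simp only [setIntegral_univ] at hlim
  have hlim2 : Tendsto (fun i => ∫ x, r i x ∂μ) (hyperfilter ℕ : Filter ℕ)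
      (𝓝 (∫ x, R 0 0 0 x ∂μ).re) := by
    refine ((Complex.continuous_re.tendsto _).comp hlim).congr fun i => ?_
    have e1 : ∫ x, ph T f g w (N i) (θ i) 0 0 0 x ∂μ = ((∫ x, r i x ∂μ : ℝ) : ℂ) := by
      refine Eq.trans (integral_congr_ae (Eventually.of_forall fun x => hr1 i x)) ?_
      exact integral_ofReal
    simp only [Function.comp_apply]
    rw [e1, Complex.ofReal_re]
  have e2 : δ * μ.real {x | ∃ᶠ M in atTop, δ < ‖avg T f g w M x‖} ≤
      (∫ x, R 0 0 0 x ∂μ).re := ge_of_tendsto hlim2 (Eventually.of_forall hmark)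
  refine e2.trans ?_
  refine (Complex.re_le_norm _).trans ?_
  have e3 := norm_integral_le_of_norm_le_const hpt
  rwa [probReal_univ, mul_one] at e3

end Pool.Agent.H43.SS
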