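import Pool.Agent.H84.SS.Targets

/-!
# Return times, singular spectrum: uniqueness of Fourier coefficients of complex measures on the
torus (row D_UNI)
-/

set_option autoImplicit false

namespace Pool.Agent.H43.SS

open MeasureTheory Filter Topology Set ProbabilityTheory
open scoped ENNReal ComplexConjugate NNReal
open Pool.Agent.H84.SS

/-- the characters as continuous functions -/
noncomputable def chc (z : ℤ × ℤ) : C(T1 × T1, ℂ) :=
  ⟨fun p => fourier z.1 p.1 * fourier z.2 p.2, by fun_prop⟩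

theorem chc_apply (z : ℤ × ℤ) (p : T1 × T1) : chc z p = fourier z.1 p.1 * fourier z.2 p.2 := rfl

/-- the algebra of trigonometric polynomials -/
noncomputable def chAlg : StarSubalgebra ℂ C(T1 × T1, ℂ) where
  toSubalgebra := Algebra.adjoin ℂ (range chc)
  star_mem' := by
    change Algebra.adjoin ℂ (range chc) ≤ star (Algebra.adjoin ℂ (range chc))
    refine Algebra.adjoin_le ?_
    rintro - ⟨z, rfl⟩
    refine Algebra.subset_adjoin ⟨-z, ContinuousMap.ext fun p => ?_⟩
    rw [ContinuousMap.star_apply, chc_apply, chc_apply, Prod.fst_neg, Prod.snd_neg, fourier_neg,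
      fourier_neg, star_mul']
    rfl

theorem chAlg_coe : Subalgebra.toSubmodule chAlg.toSubalgebra =
    Submodule.span ℂ (range chc) := by
  apply Algebra.adjoin_eq_span_of_subset
  refine Subset.trans ?_ Submodule.subset_span
  intro x hx
  refine Submonoid.closure_induction (fun _ => id) ⟨0, ?_⟩ ?_ hx
  · ext1 z
    rw [chc_apply, Prod.fst_zero, Prod.snd_zero, fourier_zero, fourier_zero, mul_one]
    rfl
  · rintro - - - - ⟨m, rfl⟩ ⟨n, rfl⟩
    refine ⟨m + n, ?_⟩
    ext1 z
    rw [ContinuousMap.mul_apply, chc_apply, chc_apply, chc_apply, Prod.fst_add, Prod.snd_add,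
      fourier_add, fourier_add]
    ring

theorem chAlg_sep : chAlg.SeparatesPoints := by
  intro x y hxy
  have hinj : ∀ a b : T1, (fourier 1 a : ℂ) = fourier 1 b → a = b := by
    intro a b h
    rw [fourier_one, fourier_one] at h
    exact AddCircle.injective_toCircle one_ne_zero (Subtype.coe_injective h)
  by_cases h1 : x.1 = y.1
  · have h2 : x.2 ≠ y.2 := fun h => hxy (Prod.ext h1 h)
    refine ⟨_, ⟨chc (0, 1), Algebra.subset_adjoin ⟨(0, 1), rfl⟩, rfl⟩, ?_⟩
    dsimp only
    rw [chc_apply, chc_apply, fourier_zero, fourier_zero, one_mul, one_mul]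
    exact fun h => h2 (hinj _ _ h)
  · refine ⟨_, ⟨chc (1, 0), Algebra.subset_adjoin ⟨(1, 0), rfl⟩, rfl⟩, ?_⟩
    dsimp only
    rw [chc_apply, chc_apply, fourier_zero, fourier_zero, mul_one, mul_one]
    exact fun h => h1 (hinj _ _ h)

theorem span_dense : (Submodule.span ℂ (range chc)).topologicalClosure = ⊤ := by
  rw [← chAlg_coe]
  exact congr_arg (Subalgebra.toSubmodule <| StarSubalgebra.toSubalgebra ·)
    (ContinuousMap.starSubalgebra_topologicalClosure_eq_top_of_separatesPoints chAlg chAlg_sep)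

theorem int_mul (ν : Measure (T1 × T1)) (G : T1 × T1 → ℂ) (hG : Integrable G ν)
    (φ : C(T1 × T1, ℂ)) : Integrable (fun z => φ z * G z) ν :=
  hG.bdd_mul φ.continuous.aestronglyMeasurable
    (Eventually.of_forall fun z => ContinuousMap.norm_coe_le_norm φ z)

theorem int_cont (ν : Measure (T1 × T1)) (G : T1 × T1 → ℂ) (hG : Integrable G ν) :
    Continuous (fun φ : C(T1 × T1, ℂ) => ∫ z, φ z * G z ∂ν) := by
  have hK : 0 ≤ ∫ z, ‖G z‖ ∂ν := integral_nonneg fun z => norm_nonneg _
  refine LipschitzWith.continuous (K := ⟨∫ z, ‖G z‖ ∂ν, hK⟩) ?_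
  refine LipschitzWith.of_dist_le_mul fun φ ψ => ?_
  rw [dist_eq_norm, dist_eq_norm, ← integral_sub (int_mul ν G hG φ) (int_mul ν G hG ψ)]
  have h1 : ‖∫ z, (φ z * G z - ψ z * G z) ∂ν‖ ≤ ∫ z, ‖φ - ψ‖ * ‖G z‖ ∂ν := by
    refine norm_integral_le_of_norm_le (hG.norm.const_mul _) (Eventually.of_forall fun z => ?_)
    rw [← sub_mul, norm_mul]
    gcongr
    exact ContinuousMap.norm_coe_le_norm (φ - ψ) z
  rw [integral_const_mul, mul_comm] at h1
  exact h1

/-- the continuous functions on which the functionals agree -/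
noncomputable def agr (ν ν' : Measure (T1 × T1)) (G G' : T1 × T1 → ℂ) (hG : Integrable G ν)
    (hG' : Integrable G' ν') : Submodule ℂ C(T1 × T1, ℂ) where
  carrier := {φ | ∫ z, φ z * G z ∂ν = ∫ z, φ z * G' z ∂ν'}
  add_mem' := by
    intro φ ψ h1 h2
    have h1' : ∫ z, φ z * G z ∂ν = ∫ z, φ z * G' z ∂ν' := h1
    have h2' : ∫ z, ψ z * G z ∂ν = ∫ z, ψ z * G' z ∂ν' := h2
    change ∫ z, (φ z + ψ z) * G z ∂ν = ∫ z, (φ z + ψ z) * G' z ∂ν'
    simp only [add_mul]
    rw [integral_add (int_mul ν G hG φ) (int_mul ν G hG ψ),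
      integral_add (int_mul ν' G' hG' φ) (int_mul ν' G' hG' ψ), h1', h2']
  zero_mem' := by
    change ∫ z, (0 : ℂ) * G z ∂ν = ∫ z, (0 : ℂ) * G' z ∂ν'
    simp
  smul_mem' := by
    intro c φ h1
    have h1' : ∫ z, φ z * G z ∂ν = ∫ z, φ z * G' z ∂ν' := h1
    change ∫ z, (c * φ z) * G z ∂ν = ∫ z, (c * φ z) * G' z ∂ν'
    simp only [mul_assoc]
    rw [integral_const_mul, integral_const_mul, h1']

theorem agr_top (ν ν' : Measure (T1 × T1)) (G G' : T1 × T1 → ℂ) (hG : Integrable G ν)
    (hG' : Integrable G' ν')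
    (h : ∀ a b : ℤ, ∫ z, ch a b z * G z ∂ν = ∫ z, ch a b z * G' z ∂ν') (φ : C(T1 × T1, ℂ)) :
    ∫ z, φ z * G z ∂ν = ∫ z, φ z * G' z ∂ν' := by
  have h1 : Submodule.span ℂ (range chc) ≤ agr ν ν' G G' hG hG' := by
    rw [Submodule.span_le]
    rintro - ⟨z, rfl⟩
    exact h z.1 z.2
  have h2 : IsClosed ((agr ν ν' G G' hG hG' : Submodule ℂ C(T1 × T1, ℂ)) :
      Set C(T1 × T1, ℂ)) := isClosed_eq (int_cont ν G hG) (int_cont ν' G' hG')
  have h3 := Submodule.topologicalClosure_minimal _ h1 h2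
  rw [span_dense] at h3
  exact h3 (Submodule.mem_top : φ ∈ ⊤)

theorem closed_lim (ν : Measure (T1 × T1)) (G : T1 × T1 → ℂ) (hG : Integrable G ν)
    (F : Set (T1 × T1)) (hF : IsClosed F) :
    Tendsto (fun n : ℕ => ∫ z, (((hF.apprSeq n z : ℝ≥0) : ℝ) : ℂ) * G z ∂ν) atTop
      (𝓝 (∫ z in F, G z ∂ν)) := by
  rw [← integral_indicator hF.measurableSet]
  refine tendsto_integral_of_dominated_convergence (fun z => ‖G z‖) ?_ hG.norm ?_ ?_
  · intro n
    refine AEStronglyMeasurable.mul ?_ hG.aestronglyMeasurable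
    refine Continuous.aestronglyMeasurable ?_
    exact Complex.continuous_ofReal.comp
      (NNReal.continuous_coe.comp (hF.apprSeq n).continuous)
  · intro n
    refine Eventually.of_forall fun z => ?_
    rw [norm_mul, Complex.norm_real, Real.norm_of_nonneg (NNReal.coe_nonneg _)]
    refine mul_le_of_le_one_left (norm_nonneg _) ?_
    exact_mod_cast HasOuterApproxClosed.apprSeq_apply_le_one hF n z
  · refine Eventually.of_forall fun z => ?_
    have h1 := tendsto_pi_nhds.1 (HasOuterApproxClosed.tendsto_apprSeq hF) z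
    have h2 : Tendsto (fun n => (((hF.apprSeq n z : ℝ≥0) : ℝ) : ℂ) * G z) atTop
        (𝓝 ((((F.indicator (fun _ => (1 : ℝ≥0)) z : ℝ≥0) : ℝ) : ℂ) * G z)) :=
      (((Complex.continuous_ofReal.comp NNReal.continuous_coe).tendsto _).comp h1).mul_const _
    have h3 : (((F.indicator (fun _ => (1 : ℝ≥0)) z : ℝ≥0) : ℝ) : ℂ) * G z =
        F.indicator (fun z => G z) z := by
      by_cases hz : z ∈ F
      · rw [indicator_of_mem hz, indicator_of_mem hz]
        simp
      · rw [indicator_of_notMem hz, indicator_of_notMem hz]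
        simp
    rw [h3] at h2
    exact h2

theorem pf_UNI : D_UNI := by
  intro ν ν' _ _ G G' hG hG' h D hD
  have hcl : ∀ F : Set (T1 × T1), IsClosed F → ∫ z in F, G z ∂ν = ∫ z in F, G' z ∂ν' := by
    intro F hF
    refine tendsto_nhds_unique (closed_lim ν G hG F hF) ?_
    refine (closed_lim ν' G' hG' F hF).congr fun n => ?_
    exact (agr_top ν ν' G G' hG hG' h ⟨fun z => (((hF.apprSeq n z : ℝ≥0) : ℝ) : ℂ),
      Complex.continuous_ofReal.comp
        (NNReal.continuous_coe.comp (hF.apprSeq n).continuous)⟩).symm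
  have htot : ∫ z, G z ∂ν = ∫ z, G' z ∂ν' := by
    have h1 := hcl univ isClosed_univ
    rwa [setIntegral_univ, setIntegral_univ] at h1
  have heq : (inferInstance : MeasurableSpace (T1 × T1)) =
      MeasurableSpace.generateFrom {s | IsClosed s} := by
    rw [← borel_eq_generateFrom_isClosed]
    exact BorelSpace.measurable_eq
  refine MeasurableSpace.induction_on_inter
    (C := fun s _ => ∫ z in s, G z ∂ν = ∫ z in s, G' z ∂ν') heq isPiSystem_isClosed
    ?_ ?_ ?_ ?_ D hD
  · simp
  · intro t ht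
    exact hcl t ht
  · intro t ht h1
    rw [setIntegral_compl ht hG, setIntegral_compl ht hG', htot, h1]
  · intro f hd hf h1
    rw [integral_iUnion hf hd hG.integrableOn, integral_iUnion hf hd hG'.integrableOn]
    exact tsum_congr h1

end Pool.Agent.H43.SS
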