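import Pool.Agent.H84.SS.Targets

/-!
# Return times, singular spectrum: weak limits along the ultrafilter (row M_WKL)
-/

set_option autoImplicit false

namespace Pool.Agent.H43.SS

open MeasureTheory Filter Topology Set ProbabilityTheory
open scoped ENNReal ComplexConjugate InnerProductSpace
open Pool.Agent.H84.SS

universe u

/-- bounded sequences converge along the ultrafilter -/
theorem ulim (φ : ℕ → ℂ) (B : ℝ) (h : ∀ i, ‖φ i‖ ≤ B) :
    ∃ l : ℂ, ‖l‖ ≤ B ∧ Tendsto φ (hyperfilter ℕ : Filter ℕ) (𝓝 l) := by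
  have hc : IsCompact (Metric.closedBall (0 : ℂ) B) := isCompact_closedBall 0 B
  have h1 : (((hyperfilter ℕ).map φ : Ultrafilter ℂ) : Filter ℂ) ≤
      𝓟 (Metric.closedBall 0 B) := by
    rw [Ultrafilter.coe_map, le_principal_iff, mem_map]
    exact univ_mem' fun i => mem_closedBall_zero_iff.2 (h i)
  obtain ⟨l, hl, hl2⟩ := hc.ultrafilter_le_nhds ((hyperfilter ℕ).map φ) h1
  exact ⟨l, mem_closedBall_zero_iff.1 hl, hl2⟩

section WKL

variable {X : Type u} {I m0 : MeasurableSpace X} {μ : Measure X} [IsProbabilityMeasure μ]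
  (hI : I ≤ m0)

omit [IsProbabilityMeasure μ] in
theorem wkl_mem (ψ : Lp ℂ 2 (μ.trim hI)) : MemLp ψ 2 μ := memLp_of_memLp_trim hI (Lp.memLp ψ)

theorem wkl_int (ψ : Lp ℂ 2 (μ.trim hI)) : Integrable ψ μ :=
  (wkl_mem hI ψ).integrable one_le_two

theorem wkl_norm (ψ : Lp ℂ 2 (μ.trim hI)) : ∫ x, ‖ψ x‖ ∂μ ≤ ‖ψ‖ := by
  have h1 : eLpNorm ψ 1 μ ≤ eLpNorm ψ 2 μ :=
    eLpNorm_le_eLpNorm_of_exponent_le one_le_two (wkl_mem hI ψ).1
  have h2 : eLpNorm ψ 2 (μ.trim hI) = eLpNorm ψ 2 μ := eLpNorm_trim hI (Lp.stronglyMeasurable ψ)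
  rw [Lp.norm_def, h2, integral_norm_eq_lintegral_enorm (wkl_mem hI ψ).1,
    ← eLpNorm_one_eq_lintegral_enorm]
  exact ENNReal.toReal_mono (wkl_mem hI ψ).2.ne h1

/-- the pairing -/
noncomputable def wJ (φ : X → ℂ) (ψ : Lp ℂ 2 (μ.trim hI)) : ℂ := ∫ x, φ x * ψ x ∂μ

theorem wJ_int (φ : X → ℂ) (B : ℝ) (hφ : Measurable φ) (hB : ∀ x, ‖φ x‖ ≤ B)
    (ψ : Lp ℂ 2 (μ.trim hI)) : Integrable (fun x => φ x * ψ x) μ :=
  (wkl_int hI ψ).bdd_mul hφ.aestronglyMeasurable (Eventually.of_forall hB)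

theorem wJ_norm (φ : X → ℂ) (B : ℝ) (hB0 : 0 ≤ B) (hB : ∀ x, ‖φ x‖ ≤ B)
    (ψ : Lp ℂ 2 (μ.trim hI)) : ‖wJ hI φ ψ‖ ≤ B * ‖ψ‖ := by
  have h1 : ‖wJ hI φ ψ‖ ≤ ∫ x, B * ‖ψ x‖ ∂μ := by
    refine norm_integral_le_of_norm_le ((wkl_int hI ψ).norm.const_mul B)
      (Eventually.of_forall fun x => ?_)
    rw [norm_mul]
    gcongr
    exact hB x
  rw [integral_const_mul] at h1
  exact h1.trans (mul_le_mul_of_nonneg_left (wkl_norm hI ψ) hB0)

theorem wJ_add (φ : X → ℂ) (B : ℝ) (hφ : Measurable φ) (hB : ∀ x, ‖φ x‖ ≤ B)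
    (ψ ψ' : Lp ℂ 2 (μ.trim hI)) : wJ hI φ (ψ + ψ') = wJ hI φ ψ + wJ hI φ ψ' := by
  unfold wJ
  rw [← integral_add (wJ_int hI φ B hφ hB ψ) (wJ_int hI φ B hφ hB ψ')]
  apply integral_congr_ae
  filter_upwards [ae_eq_of_ae_eq_trim (Lp.coeFn_add ψ ψ')] with x hx
  rw [hx, Pi.add_apply, mul_add]

omit [IsProbabilityMeasure μ] in
theorem wJ_smul (φ : X → ℂ) (c : ℂ) (ψ : Lp ℂ 2 (μ.trim hI)) :
    wJ hI φ (c • ψ) = c * wJ hI φ ψ := by
  unfold wJ
  rw [← integral_const_mul]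
  apply integral_congr_ae
  filter_upwards [ae_eq_of_ae_eq_trim (Lp.coeFn_smul c ψ)] with x hx
  rw [hx, Pi.smul_apply, smul_eq_mul]
  ring

include hI in
theorem wkl_main (φ : ℕ → X → ℂ) (B : ℝ) (hφ : ∀ i, Measurable (φ i))
    (hB : ∀ i x, ‖φ i x‖ ≤ B) :
    ∃ R : X → ℂ, StronglyMeasurable[I] R ∧ Integrable R μ ∧
        ∀ Q, MeasurableSet[I] Q → Tendsto (fun i => ∫ x in Q, φ i x ∂μ)
          (hyperfilter ℕ : Filter ℕ) (𝓝 (∫ x in Q, R x ∂μ)) := by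
  have hB0 : 0 ≤ B := by
    obtain ⟨x⟩ : Nonempty X := nonempty_of_isProbabilityMeasure μ
    exact (norm_nonneg _).trans (hB 0 x)
  choose l hl1 hl2 using fun ψ : Lp ℂ 2 (μ.trim hI) =>
    ulim (fun i => wJ hI (φ i) ψ) (B * ‖ψ‖) fun i => wJ_norm hI (φ i) B hB0 (hB i) ψ
  let L : Lp ℂ 2 (μ.trim hI) →ₗ[ℂ] ℂ :=
    { toFun := l
      map_add' := by
        intro ψ ψ'
        refine tendsto_nhds_unique (hl2 (ψ + ψ')) ?_
        refine ((hl2 ψ).add (hl2 ψ')).congr fun i => ?_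
        exact (wJ_add hI (φ i) B (hφ i) (hB i) ψ ψ').symm
      map_smul' := by
        intro c ψ
        refine tendsto_nhds_unique (hl2 (c • ψ)) ?_
        refine ((hl2 ψ).const_mul c).congr fun i => ?_
        exact (wJ_smul hI (φ i) c ψ).symm }
  let Lc : Lp ℂ 2 (μ.trim hI) →L[ℂ] ℂ := L.mkContinuous B hl1
  set v : Lp ℂ 2 (μ.trim hI) := (InnerProductSpace.toDual ℂ (Lp ℂ 2 (μ.trim hI))).symm Lc with hv
  have hinner : ∀ ψ, ⟪v, ψ⟫_ℂ = l ψ := fun ψ => by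
    rw [hv, InnerProductSpace.toDual_symm_apply]
    rfl
  have hsm : StronglyMeasurable[I] (fun x => v x) := Lp.stronglyMeasurable v
  refine ⟨fun x => conj (v x), Complex.continuous_conj.comp_stronglyMeasurable hsm, ?_, ?_⟩
  · refine (wkl_int hI v).mono
      (Complex.continuous_conj.comp_aestronglyMeasurable (wkl_int hI v).aestronglyMeasurable)
      (Eventually.of_forall fun x => ?_)
    rw [RCLike.norm_conj]
  · intro Q hQ
    have hfin : (μ.trim hI) Q ≠ ⊤ := measure_ne_top _ _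
    have h1 := hl2 (indicatorConstLp 2 hQ hfin (1 : ℂ))
    have h2 : ∀ i, wJ hI (φ i) (indicatorConstLp 2 hQ hfin (1 : ℂ)) = ∫ x in Q, φ i x ∂μ := by
      intro i
      unfold wJ
      rw [← integral_indicator (hI Q hQ)]
      apply integral_congr_ae
      have h3 : (indicatorConstLp 2 hQ hfin (1 : ℂ) : X → ℂ) =ᵐ[μ] Q.indicator fun _ => 1 :=
        ae_eq_of_ae_eq_trim indicatorConstLp_coeFn
      filter_upwards [h3] with x hx
      rw [hx]
      by_cases hxQ : x ∈ Q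
      · rw [indicator_of_mem hxQ, indicator_of_mem hxQ, mul_one]
      · rw [indicator_of_notMem hxQ, indicator_of_notMem hxQ, mul_zero]
    have h4 : l (indicatorConstLp 2 hQ hfin (1 : ℂ)) = ∫ x in Q, conj (v x) ∂μ := by
      rw [← hinner, ← inner_conj_symm, L2.inner_indicatorConstLp_one, integral_conj,
        setIntegral_trim hI hsm hQ]
    rw [h4] at h1
    exact h1.congr h2

end WKL

theorem pf_WKL : M_WKL.{u} := by
  intro X I m0 μ _ hI φ B hφ hB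
  exact wkl_main hI φ B hφ hB

end Pool.Agent.H43.SS
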